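import Pool.Agent.Helper51.PF.Goals

/-!
# Project PF, packet PEX
-/

set_option autoImplicit false

namespace Pool.Agent.Helper41.PF

open Finset
open Pool.Agent.Helper51.PF

theorem pow_add_ge (S b : ℝ) (hS : 0 ≤ S) (hb : 0 ≤ b) (q : ℕ) :
    S ^ (q + 1) + ((q : ℝ) + 1) * b * S ^ q ≤ (S + b) ^ (q + 1) := by
  induction q with
  | zero => simp
  | succ q ih =>
    have h1 : 0 ≤ S ^ q := pow_nonneg hS q
    calc S ^ (q + 1 + 1) + (((q + 1 : ℕ) : ℝ) + 1) * b * S ^ (q + 1)
        ≤ (S ^ (q + 1) + ((q : ℝ) + 1) * b * S ^ q) * (S + b) := by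
          have : (S ^ (q + 1) + ((q : ℝ) + 1) * b * S ^ q) * (S + b) -
              (S ^ (q + 1 + 1) + (((q + 1 : ℕ) : ℝ) + 1) * b * S ^ (q + 1)) =
              ((q : ℝ) + 1) * b ^ 2 * S ^ q := by
            push_cast
            ring
          have h2 : 0 ≤ ((q : ℝ) + 1) * b ^ 2 * S ^ q := by positivity
          linarith
      _ ≤ (S + b) ^ (q + 1) * (S + b) := mul_le_mul_of_nonneg_right ih (by linarith)
      _ = (S + b) ^ (q + 1 + 1) := (pow_succ (S + b) (q + 1)).symm

theorem esum_zero (Z : Finset ℕ) (b : ℕ → ℝ) : esum Z b 0 = 1 := by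
  simp [esum]

theorem esum_insert (Z : Finset ℕ) (b : ℕ → ℝ) (r : ℕ) (hr : r ∉ Z) (q : ℕ) :
    esum (insert r Z) b (q + 1) = esum Z b (q + 1) + b r * esum Z b q := by
  unfold esum
  rw [Finset.powersetCard_succ_insert hr, Finset.sum_union]
  · congr 1
    rw [Finset.sum_image, Finset.mul_sum]
    · apply Finset.sum_congr rfl
      intro R hR
      have hrR : r ∉ R := fun h => hr ((Finset.mem_powersetCard.mp hR).1 h)
      rw [Finset.prod_insert hrR]
    · intro R hR R' hR' h
      have hrR : r ∉ R := fun h => hr ((Finset.mem_powersetCard.mp hR).1 h)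
      have hrR' : r ∉ R' := fun h => hr ((Finset.mem_powersetCard.mp hR').1 h)
      have h2 := congrArg (fun A => A.erase r) h
      simp only [Finset.erase_insert hrR, Finset.erase_insert hrR'] at h2
      exact h2
  · rw [Finset.disjoint_left]
    intro R hR hR2
    rw [Finset.mem_image] at hR2
    obtain ⟨R', _, rfl⟩ := hR2
    exact hr ((Finset.mem_powersetCard.mp hR).1 (Finset.mem_insert_self r R'))

/-- PACKET PEX -/
theorem g_pex : G_PEX := by
  refine ⟨?_, ?_⟩
  · intro Z b hb
    induction Z using Finset.induction_on with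
    | empty => simp
    | insert r Z hr ih =>
      rw [Finset.prod_insert hr, Finset.sum_insert hr, Finset.sum_insert hr]
      have hP0 : 0 ≤ ∏ r ∈ Z, (1 - b r) :=
        Finset.prod_nonneg (fun i _ => by linarith [(hb i).2])
      have hP1 : ∏ r ∈ Z, (1 - b r) ≤ 1 :=
        Finset.prod_le_one (fun i _ => by linarith [(hb i).2]) (fun i _ => by linarith [(hb i).1])
      obtain ⟨hr0, hr1⟩ := hb r
      have he : |Real.exp (-b r) - 1 - (-b r)| ≤ (-b r) ^ 2 :=
        Real.abs_exp_sub_one_sub_id_le (by rw [abs_neg, abs_of_nonneg hr0]; exact hr1)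
      have hexp : Real.exp (-b r) ≤ 1 := by
        rw [Real.exp_le_one_iff]
        linarith
      have hexp0 : 0 ≤ Real.exp (-b r) := (Real.exp_pos _).le
      have e1 : Real.exp (-(b r + ∑ x ∈ Z, b x)) =
          Real.exp (-b r) * Real.exp (-(∑ x ∈ Z, b x)) := by
        rw [← Real.exp_add]
        congr 1
        ring
      rw [e1]
      have e2 : (1 - b r) * ∏ x ∈ Z, (1 - b x) -
          Real.exp (-b r) * Real.exp (-(∑ x ∈ Z, b x)) =
          -(Real.exp (-b r) - 1 - (-b r)) * ∏ x ∈ Z, (1 - b x) +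
          Real.exp (-b r) * (∏ x ∈ Z, (1 - b x) - Real.exp (-(∑ x ∈ Z, b x))) := by ring
      rw [e2]
      refine (abs_add_le _ _).trans ?_
      rw [abs_mul, abs_mul, abs_neg, abs_of_nonneg hP0, abs_of_nonneg hexp0]
      have h1 : |Real.exp (-b r) - 1 - (-b r)| * ∏ x ∈ Z, (1 - b x) ≤ b r ^ 2 := by
        calc _ ≤ (-b r) ^ 2 * 1 := mul_le_mul he hP1 hP0 (by positivity)
          _ = b r ^ 2 := by ring
      have h2 : Real.exp (-b r) * |∏ x ∈ Z, (1 - b x) - Real.exp (-(∑ x ∈ Z, b x))| ≤
          ∑ x ∈ Z, b x ^ 2 := by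
        calc _ ≤ 1 * |∏ x ∈ Z, (1 - b x) - Real.exp (-(∑ x ∈ Z, b x))| :=
              mul_le_mul_of_nonneg_right hexp (abs_nonneg _)
          _ ≤ _ := by rw [one_mul]; exact ih
      linarith
  · intro Z b hb
    induction Z using Finset.induction_on with
    | empty =>
      intro q
      rcases q with _ | q
      · simp [esum]
      · have h1 : esum ∅ b (q + 1) = 0 := by
          unfold esum
          rw [Finset.powersetCard_eq_empty.mpr (by simp), Finset.sum_empty]
        rw [h1, Finset.sum_empty]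
        positivity
    | insert r Z hr ih =>
      intro q
      have hS : 0 ≤ ∑ r ∈ Z, b r := Finset.sum_nonneg (fun i _ => hb i)
      rcases q with _ | q
      · rw [esum_zero]
        simp
      · rw [esum_insert Z b r hr q, Finset.sum_insert hr]
        have h1 := ih (q + 1)
        have h2 := mul_le_mul_of_nonneg_left (ih q) (hb r)
        have hfac : (0 : ℝ) < ((q + 1).factorial : ℝ) := by positivity
        have hfac' : (0 : ℝ) < (q.factorial : ℝ) := by positivity
        have h3 := pow_add_ge (∑ r ∈ Z, b r) (b r) hS (hb r) q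
        have h4 : (∑ r ∈ Z, b r) ^ (q + 1) / ((q + 1).factorial : ℝ) +
            b r * ((∑ r ∈ Z, b r) ^ q / (q.factorial : ℝ)) =
            ((∑ r ∈ Z, b r) ^ (q + 1) + ((q : ℝ) + 1) * b r * (∑ r ∈ Z, b r) ^ q) /
              ((q + 1).factorial : ℝ) := by
          rw [Nat.factorial_succ]
          push_cast
          field_simp
        calc _ ≤ (∑ r ∈ Z, b r) ^ (q + 1) / ((q + 1).factorial : ℝ) +
              b r * ((∑ r ∈ Z, b r) ^ q / (q.factorial : ℝ)) := by linarith
          _ = _ := h4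
          _ ≤ (b r + ∑ x ∈ Z, b x) ^ (q + 1) / ((q + 1).factorial : ℝ) := by
            apply div_le_div_of_nonneg_right _ hfac.le
            rw [add_comm (b r)]
            exact h3

end Pool.Agent.Helper41.PF
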